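import Pool.Agent.Helper78.UF.Params

/-!
# Univariate factorisation over `ℚ`: polynomial time of the pieces (block M2)
-/

set_option autoImplicit false

namespace Pool.Agent.Helper71.UF

open Pool.Agent.Helper78.UF

open Pool.Agent.PolyTime

section
variable {α : Type} [PEnc α]

/-! ### Gaussian integers -/

theorem n1_gmul_le (x y : ℤ × ℤ) : n1 (gmul x y) ≤ n1 x * n1 y := by
  unfold n1 gmul
  have h1 : (x.1 * y.1 - x.2 * y.2).natAbs ≤ x.1.natAbs * y.1.natAbs + x.2.natAbs * y.2.natAbs := by
    refine (Int.natAbs_sub_le _ _).trans ?_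
    rw [Int.natAbs_mul, Int.natAbs_mul]
  have h2 : (x.1 * y.2 + x.2 * y.1).natAbs ≤ x.1.natAbs * y.2.natAbs + x.2.natAbs * y.1.natAbs := by
    refine (Int.natAbs_add_le _ _).trans ?_
    rw [Int.natAbs_mul, Int.natAbs_mul]
  have h3 : (x.1.natAbs + x.2.natAbs) * (y.1.natAbs + y.2.natAbs) =
      x.1.natAbs * y.1.natAbs + x.2.natAbs * y.2.natAbs +
        (x.1.natAbs * y.2.natAbs + x.2.natAbs * y.1.natAbs) := by ring
  show (x.1 * y.1 - x.2 * y.2).natAbs + (x.1 * y.2 + x.2 * y.1).natAbs ≤ _
  rw [h3]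
  exact Nat.add_le_add h1 h2

theorem n1_gpow_le (g : ℤ × ℤ) (i : ℕ) : n1 (gpow g i) ≤ n1 g ^ i := by
  unfold gpow
  induction i with
  | zero => simp [n1]
  | succ i ih =>
    rw [Function.iterate_succ_apply', pow_succ']
    exact (n1_gmul_le _ _).trans (Nat.mul_le_mul_left _ ih)

theorem size_le_n1 (x : ℤ × ℤ) : size x ≤ 3 * (size (n1 x) + 3) + 1 := by
  rw [size_prod, size_int, size_int]
  have h1 : size x.1.natAbs ≤ size (n1 x) := size_nat_mono (Nat.le_add_right _ _)
  have h2 : size x.2.natAbs ≤ size (n1 x) := size_nat_mono (Nat.le_add_left _ _)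
  omega

@[fun_prop]
theorem pt_gmul {x y : α → ℤ × ℤ} (hx : PolyTime x) (hy : PolyTime y) :
    PolyTime (fun a => gmul (x a) (y a)) := by
  unfold gmul
  fun_prop

@[fun_prop]
theorem pt_gadd {x y : α → ℤ × ℤ} (hx : PolyTime x) (hy : PolyTime y) :
    PolyTime (fun a => gadd (x a) (y a)) := by
  unfold gadd
  fun_prop

@[fun_prop]
theorem pt_n1 {x : α → ℤ × ℤ} (hx : PolyTime x) : PolyTime (fun a => n1 (x a)) := by
  unfold n1
  fun_prop

theorem pt_gpow {g : α → ℤ × ℤ} {i : α → ℕ} (hg : PolyTime g) (hi : PolyTime i)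
    (hi' : PBd i) : PolyTime (fun a => gpow (g a) (i a)) := by
  have hN : PolyTime (fun a => n1 (g a)) := pt_n1 hg
  refine PolyTime.iterate (f := fun a s => gmul (g a) s) (g := fun _ => ((1 : ℤ), (0 : ℤ)))
    (B := fun a => 3 * ((i a * size (n1 (g a)) + 1) + 3) + 1) (by fun_prop) hi hi'
    (by fun_prop) ?_ ?_
  · exact (((PBd.const 3).mul (((hi'.mul hN.pbd).add (PBd.const 1)).add (PBd.const 3))).add
      (PBd.const 1))
  · intro a j hj
    have h1 := size_le_n1 (gpow (g a) j)
    have h2 : size (n1 (gpow (g a) j)) ≤ j * size (n1 (g a)) + 1 :=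
      (size_nat_mono (n1_gpow_le (g a) j)).trans (size_pow_le _ _)
    have h3 : j * size (n1 (g a)) ≤ i a * size (n1 (g a)) := Nat.mul_le_mul_right _ hj
    show size (gpow (g a) j) ≤ _
    omega

theorem pt_latRow {n w D i : α → ℕ} {g : α → ℤ × ℤ} (hn : PolyTime n) (hn' : PBd n)
    (hw : PolyTime w) (hw' : PBd w) (hD : PolyTime D) (hD' : PBd D) (hi : PolyTime i)
    (hi' : PBd i) (hg : PolyTime g) :
    PolyTime (fun a => latRow (n a) (w a) (D a) (g a) (i a)) := by
  unfold latRow
  have h1 : PolyTime (fun a => 2 ^ (w a * n a)) :=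
    PolyTime.pow (PolyTime.const 2) (by fun_prop) (hw'.mul hn')
  have h2 : PolyTime (fun a => 2 ^ (w a * (n a - i a) + w a)) :=
    PolyTime.pow (PolyTime.const 2) (by fun_prop)
      ((hw'.mul (hn'.mono fun _ => Nat.sub_le _ _)).add hw')
  have h3 := pt_gpow hg hi hi'
  have h4 : PolyTime (fun a => List.range (D a + 1)) :=
    PolyTime.range (by fun_prop) (hD'.add (PBd.const 1))
  refine PolyTime.append (PolyTime.map h4 ?_) ?_
  · have h5 : PolyTime (fun p : α × ℕ => 2 ^ (w p.1 * n p.1)) := h1.comp PolyTime.fst'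
    exact PolyTime.cond (by fun_prop) (PolyTime.natCast_int h5) (PolyTime.const 0)
  · fun_prop

theorem pt_lattice {n w D : α → ℕ} {g : α → ℤ × ℤ} (hn : PolyTime n) (hn' : PBd n)
    (hw : PolyTime w) (hw' : PBd w) (hD : PolyTime D) (hD' : PBd D) (hg : PolyTime g) :
    PolyTime (fun a => lattice (n a) (w a) (D a) (g a)) := by
  have h4 : PolyTime (fun a => List.range (D a + 1)) :=
    PolyTime.range (by fun_prop) (hD'.add (PBd.const 1))
  have h5 : PolyTime (fun p : α × ℕ => latRow (n p.1) (w p.1) (D p.1) (g p.1)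
      (min p.2 (D p.1))) :=
    pt_latRow (by fun_prop) (hn'.comp PolyTime.fst') (by fun_prop) (hw'.comp PolyTime.fst')
      (by fun_prop) (hD'.comp PolyTime.fst') (by fun_prop)
      ((hD'.comp PolyTime.fst').mono fun _ => min_le_right _ _) (by fun_prop)
  refine (PolyTime.map (g := fun a i => latRow (n a) (w a) (D a) (g a) (min i (D a)))
    h4 h5).congr fun a => ?_
  unfold lattice
  apply List.map_congr_left
  intro i hi
  have : i ≤ D a := Nat.lt_succ_iff.1 (List.mem_range.1 hi)
  rw [min_eq_left this]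

/-! ### the minimal polynomial -/

@[fun_prop]
theorem pt_dotZ {u v : α → List ℤ} (hu : PolyTime u) (hv : PolyTime v) :
    PolyTime (fun a => dotZ (u a) (v a)) := by
  unfold dotZ
  exact PolyTime.int_sum (PolyTime.zipWith hu hv (by fun_prop))

@[fun_prop]
theorem pt_divN {z : α → ℤ} {m : α → ℕ} (hz : PolyTime z) (hm : PolyTime m) :
    PolyTime (fun a => divN (z a) (m a)) := by
  unfold divN
  fun_prop

theorem pt_minPol {K T S n w : α → ℕ} {g : α → ℤ × ℤ} (hK : PolyTime K) (hK' : PBd K)
    (hT : PolyTime T) (hT' : PBd T) (hS : PolyTime S) (hS' : PBd S) (hn : PolyTime n)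
    (hn' : PBd n) (hw : PolyTime w) (hw' : PBd w) (hg : PolyTime g)
    (pt_lll : ∀ {K T : α × ℕ → ℕ} {B : α × ℕ → List (List ℤ)}, PolyTime K → PBd K →
      PolyTime T → PBd T → PolyTime B → PolyTime (fun a => lll (K a) (T a) (B a))) :
    PolyTime (fun a => minPol (K a) (T a) (S a) (n a) (w a) (g a)) := by
  have h1 : PolyTime (fun a => 2 ^ (w a * n a)) :=
    PolyTime.pow (PolyTime.const 2) (by fun_prop) (hw'.mul hn')
  have h2 : PolyTime (fun a => 2 ^ S a) := PolyTime.pow (PolyTime.const 2) hS hS'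
  have h3 : PolyTime (fun a => List.range (n a)) := PolyTime.range hn hn'
  have h4 : PolyTime (fun p : α × ℕ => lattice (n p.1) (w p.1) (min p.2 (n p.1) + 1) (g p.1)) :=
    pt_lattice (by fun_prop) (hn'.comp PolyTime.fst') (by fun_prop) (hw'.comp PolyTime.fst')
      (by fun_prop)
      (((hn'.comp PolyTime.fst').mono fun _ => min_le_right _ _).add (PBd.const 1))
      (by fun_prop)
  have h5 : PolyTime (fun p : α × ℕ => (p.2 + 1, shortVec (K p.1) (T p.1) (n p.1) (w p.1)
      (min p.2 (n p.1) + 1) (g p.1))) := by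
    unfold shortVec
    exact PolyTime.prodMk (by fun_prop) (PolyTime.headD (pt_lll (by fun_prop)
      (hK'.comp PolyTime.fst') (by fun_prop) (hT'.comp PolyTime.fst') h4) (by fun_prop))
  have h6 : PolyTime (fun a => (List.range (n a)).map (fun d => (d + 1, shortVec (K a) (T a)
      (n a) (w a) (d + 1) (g a)))) := by
    refine (PolyTime.map (g := fun a d => (d + 1, shortVec (K a) (T a) (n a) (w a)
      (min d (n a) + 1) (g a))) h3 h5).congr fun a => ?_
    apply List.map_congr_left
    intro d hd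
    have : d ≤ n a := (List.mem_range.1 hd).le
    rw [min_eq_left this]
  unfold minPol
  refine PolyTime.option_elim (PolyTime.find? h6 ?_) (by fun_prop) ?_
  · have h7 : PolyTime (fun p : α × (ℕ × List ℤ) => 2 ^ S p.1) := h2.comp PolyTime.fst'
    exact PolyTime.int_decide_le (pt_dotZ (by fun_prop) (by fun_prop))
      (PolyTime.natCast_int h7)
  · refine PolyTime.map (by fun_prop) ?_
    have h8 : PolyTime (fun p : (α × (ℕ × List ℤ)) × ℤ => 2 ^ (w p.1.1 * n p.1.1)) :=
      h1.comp (f := fun p : (α × (ℕ × List ℤ)) × ℤ => p.1.1) (by fun_prop)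
    exact pt_divN (by fun_prop) h8

/-! ### the multiplicity -/

theorem pt_multAt {u w : α → ℕ} {l : α → List ℤ} {g : α → ℤ × ℤ} (hu : PolyTime u)
    (hu' : PBd u) (hw : PolyTime w) (hw' : PBd w) (hl : PolyTime l) (hg : PolyTime g)
    (pt_taylor : ∀ {g : α → ℤ × ℤ} {l : α → List ℤ}, PolyTime g → PolyTime l →
      PolyTime (fun a => Pool.Agent.Helper78.UF.taylor (g a) (l a)))
    (pt_hat : ∀ {e t : α → ℕ} {l : α → List ℤ}, PolyTime e → PBd e → PolyTime t → PBd t →
      PolyTime l → PolyTime (fun a => hat (e a) (t a) (l a))) :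
    PolyTime (fun a => multAt (u a) (w a) (l a) (g a)) := by
  unfold multAt
  have h1 : PolyTime (fun a => Pool.Agent.Helper78.UF.taylor (g a) (hat 0 (w a) (l a))) :=
    pt_taylor hg (pt_hat (PolyTime.const 0) (PBd.const 0) hw hw' hl)
  have h2 : PolyTime (fun a => 2 ^ u a) := PolyTime.pow (PolyTime.const 2) hu hu'
  have h3 : PolyTime (fun p : α × ℕ => 2 ^ (w p.1 * ((l p.1).length - 1 - p.2))) := by
    refine PolyTime.pow (PolyTime.const 2) (by fun_prop) ?_
    refine PBd.mul (hw'.comp PolyTime.fst') ?_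
    refine ((pbd_length hl).comp PolyTime.fst').mono (fun p => ?_)
    exact (Nat.sub_le _ _).trans (Nat.sub_le _ _)
  refine PolyTime.option_getD (PolyTime.find? (PolyTime.range_length hl) ?_) (by fun_prop)
  have h4 : PolyTime (fun p : α × ℕ => Pool.Agent.Helper78.UF.taylor (g p.1)
      (hat 0 (w p.1) (l p.1))) := h1.comp PolyTime.fst'
  have h5 : PolyTime (fun p : α × ℕ => 2 ^ u p.1) := h2.comp PolyTime.fst'
  exact PolyTime.decide_lt h3 (PolyTime.mul (pt_n1 (PolyTime.getD h4 (by fun_prop)
    (by fun_prop))) h5)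

/-! ### lists -/

theorem dedupL_sublist (L : List (List ℤ × ℕ)) : (dedupL L).Sublist L := by
  induction L with
  | nil => exact List.Sublist.refl _
  | cons p L ih =>
    have h : dedupL (p :: L) = bif decide (p ∈ dedupL L) then dedupL L else p :: dedupL L := rfl
    rw [h]
    by_cases hp : p ∈ dedupL L
    · simp only [hp, decide_true, cond_true]
      exact ih.cons _
    · simp only [hp, decide_false, cond_false]
      exact ih.cons_cons _

theorem pt_dedupL {L : α → List (List ℤ × ℕ)} (hL : PolyTime L) :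
    PolyTime (fun a => dedupL (L a)) := by
  have h1 : PolyTime (fun q : α × (List ℤ × ℕ) × List (List ℤ × ℕ) =>
      decide (q.2.1 ∈ q.2.2)) := by
    refine (PolyTime.decide_mem (f := fun q : α × (List ℤ × ℕ) × List (List ℤ × ℕ) => q.2.1)
      (l := fun q => q.2.2) (by fun_prop) (by fun_prop)).congr fun q => ?_
    rw [decide_eq_decide]
  refine PolyTime.foldr (s := fun _ => []) (h := fun _ p acc => bif decide (p ∈ acc) then acc
    else p :: acc) hL (PolyTime.const []) (PolyTime.cond h1 (by fun_prop) (by fun_prop)) hL.pbd ?_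
  intro a i
  exact (size_sublist (dedupL_sublist _)).trans (size_sublist (List.drop_sublist _ _))

theorem trim_cons (a : ℤ) (l : List ℤ) :
    trim (a :: l) = bif (trim l).isEmpty && decide (a = 0) then [] else a :: trim l := by
  unfold trim
  rw [List.reverse_cons, List.dropWhile_append, List.isEmpty_reverse]
  by_cases h : (List.dropWhile (fun a => decide (a = 0)) l.reverse).isEmpty = true
  · rw [if_pos h, h]
    have h' := List.isEmpty_iff.1 h
    rw [h']
    by_cases ha : a = 0 <;> simp [ha]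
  · rw [if_neg h]
    simp [h]

theorem trim_sublist (l : List ℤ) : (trim l).Sublist l := by
  unfold trim
  rw [← List.reverse_sublist, List.reverse_reverse]
  exact List.dropWhile_sublist _

theorem trim_eq_foldr (l : List ℤ) :
    trim l = l.foldr (fun a acc => bif acc.isEmpty && decide (a = 0) then [] else a :: acc) [] := by
  induction l with
  | nil => rfl
  | cons a l ih => rw [trim_cons, List.foldr_cons, ih]

theorem pt_trim {l : α → List ℤ} (hl : PolyTime l) : PolyTime (fun a => trim (l a)) := by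
  refine (PolyTime.foldr (s := fun _ => []) (h := fun _ a acc => bif acc.isEmpty &&
    decide (a = 0) then [] else a :: acc) hl (PolyTime.const []) (by fun_prop) hl.pbd
    ?_).congr fun a => (trim_eq_foldr _).symm
  intro a i
  rw [← trim_eq_foldr]
  exact (size_sublist (trim_sublist _)).trans (size_sublist (List.drop_sublist _ _))

theorem pt_posLead {l : α → List ℤ} (hl : PolyTime l) : PolyTime (fun a => posLead (l a)) := by
  have h1 : PolyTime (fun a => (l a).getLastD 0) :=
    (PolyTime.headD (PolyTime.reverse hl) (PolyTime.const 0)).congr fun a => by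
      rcases List.eq_nil_or_concat (l a) with h | ⟨m, b, h⟩
      · rw [h]; rfl
      · rw [h]; simp
  unfold posLead
  exact PolyTime.cond (PolyTime.int_neg_decide h1) (PolyTime.map hl (by fun_prop)) hl

end

end Pool.Agent.Helper71.UF
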