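import Pool.Agent.Helper79.UF.Basic
import Pool.Agent.Helper71.UF.MultPT

/-!
# Univariate factorisation over `ℚ`: the multiplicity of a root (block M2)
-/

set_option autoImplicit false

namespace Pool.Agent.Helper71.UF

open Pool.Agent.Helper78.UF

open Polynomial

/-! ### perturbation of a value -/

theorem norm_pow_sub_pow_le {x y : ℂ} {R : ℝ} (hR : 1 ≤ R) (hx : ‖x‖ ≤ R) (hy : ‖y‖ ≤ R) (i : ℕ) :
    ‖x ^ i - y ^ i‖ ≤ i * ‖x - y‖ * R ^ i := by
  induction i with
  | zero => simp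
  | succ i ih =>
    have h1 : x ^ (i + 1) - y ^ (i + 1) = x * (x ^ i - y ^ i) + (x - y) * y ^ i := by ring
    rw [h1]
    refine (norm_add_le _ _).trans ?_
    rw [norm_mul, norm_mul, norm_pow]
    have h2 : ‖y‖ ^ i ≤ R ^ i := pow_le_pow_left₀ (norm_nonneg _) hy _
    have h3 : ‖x‖ * ‖x ^ i - y ^ i‖ ≤ R * (i * ‖x - y‖ * R ^ i) :=
      mul_le_mul hx ih (norm_nonneg _) (by linarith)
    have h4 : ‖x - y‖ * ‖y‖ ^ i ≤ ‖x - y‖ * (R ^ i * R) := by
      refine mul_le_mul_of_nonneg_left (h2.trans ?_) (norm_nonneg _)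
      have : 0 ≤ R ^ i := by positivity
      nlinarith
    have h5 : ((i + 1 : ℕ) : ℝ) * ‖x - y‖ * R ^ (i + 1) =
        R * (i * ‖x - y‖ * R ^ i) + ‖x - y‖ * (R ^ i * R) := by
      push_cast; ring
    rw [h5]
    linarith

theorem aeval_eq_sum_range_of_le {p : ℤ[X]} {n : ℕ} (hn : p.natDegree ≤ n) (x : ℂ) :
    aeval x p = ∑ i ∈ Finset.range (n + 1), (p.coeff i : ℂ) * x ^ i := by
  rw [aeval_eq_sum_range' (Nat.lt_succ_of_le hn)]
  refine Finset.sum_congr rfl fun i _ => ?_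
  simp

theorem aeval_sub_le {p : ℤ[X]} {n : ℕ} (hn : p.natDegree ≤ n) {T : ℝ}
    (hT : ∑ i ∈ Finset.range (n + 1), |(p.coeff i : ℝ)| ≤ T) {x y : ℂ} {R : ℝ} (hR : 1 ≤ R)
    (hx : ‖x‖ ≤ R) (hy : ‖y‖ ≤ R) :
    ‖aeval x p - aeval y p‖ ≤ T * (n * ‖x - y‖ * R ^ n) := by
  rw [aeval_eq_sum_range_of_le hn, aeval_eq_sum_range_of_le hn, ← Finset.sum_sub_distrib]
  have h1 : ∀ i ∈ Finset.range (n + 1), ‖(p.coeff i : ℂ) * x ^ i - (p.coeff i : ℂ) * y ^ i‖ ≤
      |(p.coeff i : ℝ)| * (n * ‖x - y‖ * R ^ n) := by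
    intro i hi
    have hi' : i ≤ n := Nat.lt_succ_iff.1 (Finset.mem_range.1 hi)
    rw [← mul_sub, norm_mul]
    have h2 : ‖(p.coeff i : ℂ)‖ = |(p.coeff i : ℝ)| := by
      rw [Complex.norm_intCast]
    rw [h2]
    refine mul_le_mul_of_nonneg_left ?_ (abs_nonneg _)
    refine (norm_pow_sub_pow_le hR hx hy i).trans ?_
    have h3 : (i : ℝ) ≤ n := by exact_mod_cast hi'
    have h4 : R ^ i ≤ R ^ n := pow_le_pow_right₀ hR hi'
    gcongr
  refine (norm_sum_le _ _).trans ((Finset.sum_le_sum h1).trans ?_)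
  rw [← Finset.sum_mul]
  refine mul_le_mul_of_nonneg_right hT ?_
  positivity

/-! ### `n1` and the norm -/

theorem norm_toC_le (x : ℤ × ℤ) : ‖toC x‖ ≤ n1 x := by
  refine (Complex.norm_le_abs_re_add_abs_im _).trans (le_of_eq ?_)
  unfold toC n1
  simp

theorem n1_le (x : ℤ × ℤ) : (n1 x : ℝ) ≤ 2 * ‖toC x‖ := by
  have h1 := Complex.abs_re_le_norm (toC x)
  have h2 := Complex.abs_im_le_norm (toC x)
  have h3 : (n1 x : ℝ) = |(toC x).re| + |(toC x).im| := by
    unfold toC n1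
    simp
  rw [h3]
  linarith

/-! ### Taylor coefficients -/

theorem natDegree_toPoly_le {l : List ℤ} {n : ℕ} (hn : l.length = n + 1) :
    (toPoly l).natDegree ≤ n := by
  rw [Polynomial.natDegree_le_iff_coeff_eq_zero]
  intro k hk
  rw [coeff_toPoly, List.getD_eq_default _ _ (by omega)]

theorem natDegree_hasse_le {p : ℤ[X]} {n : ℕ} (hn : p.natDegree ≤ n) (j : ℕ) :
    (hasseDeriv j p).natDegree ≤ n :=
  ((natDegree_hasseDeriv_le p j).trans (Nat.sub_le _ _)).trans hn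

/-- sum of the absolute values of the coefficients of a list -/
theorem sum_abs_toPoly {l : List ℤ} {n : ℕ} (hn : l.length = n + 1) :
    ∑ i ∈ Finset.range (n + 1), |((toPoly l).coeff i : ℝ)| = ((l.map Int.natAbs).sum : ℕ) := by
  have h1 : ∀ (l : List ℤ), ∑ i ∈ Finset.range l.length, |((l.getD i 0 : ℤ) : ℝ)| =
      ((l.map Int.natAbs).sum : ℕ) := by
    intro l
    induction l with
    | nil => simp
    | cons a l ih =>
      rw [List.length_cons, Finset.sum_range_succ']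
      simp only [List.getD_cons_succ, List.getD_cons_zero, List.map_cons, List.sum_cons]
      rw [ih]
      push_cast
      rw [add_comm]
      congr 1
      simp
  rw [← h1, hn]
  simp only [coeff_toPoly]

theorem sum_abs_hasse_le {l : List ℤ} {n : ℕ} (hn : l.length = n + 1) {e : ℕ}
    (he : (l.map Int.natAbs).sum ≤ 2 ^ e) (j : ℕ) :
    ∑ i ∈ Finset.range (n + 1), |((hasseDeriv j (toPoly l)).coeff i : ℝ)| ≤ 2 ^ n * 2 ^ e := by
  have hdeg := natDegree_toPoly_le hn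
  have h1 : ∀ i, |((hasseDeriv j (toPoly l)).coeff i : ℝ)| ≤
      2 ^ n * |((toPoly l).coeff (i + j) : ℝ)| := by
    intro i
    rw [hasseDeriv_coeff]
    by_cases h : i + j ≤ n
    · push_cast
      rw [abs_mul, Nat.abs_cast]
      refine mul_le_mul_of_nonneg_right ?_ (abs_nonneg _)
      have h2 : (i + j).choose j ≤ 2 ^ n :=
        (Nat.choose_le_two_pow _ _).trans (Nat.pow_le_pow_right (by norm_num) h)
      exact_mod_cast h2
    · rw [coeff_eq_zero_of_natDegree_lt (lt_of_le_of_lt hdeg (not_le.1 h))]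
      simp
  have h2 : ∑ i ∈ Finset.range (n + 1), |((toPoly l).coeff (i + j) : ℝ)| ≤
      ∑ i ∈ Finset.range (n + 1), |((toPoly l).coeff i : ℝ)| := by
    have h3 : ∑ i ∈ Finset.range (n + 1), |((toPoly l).coeff (i + j) : ℝ)| =
        ∑ i ∈ (Finset.range (n + 1)).map (addRightEmbedding j), |((toPoly l).coeff i : ℝ)| := by
      rw [Finset.sum_map]
      rfl
    rw [h3]
    have h4 : ∑ i ∈ (Finset.range (n + 1)).map (addRightEmbedding j),
        |((toPoly l).coeff i : ℝ)| = ∑ i ∈ ((Finset.range (n + 1)).map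
          (addRightEmbedding j)).filter (· ≤ n), |((toPoly l).coeff i : ℝ)| := by
      rw [Finset.sum_filter]
      refine Finset.sum_congr rfl fun i _ => ?_
      by_cases h : i ≤ n
      · rw [if_pos h]
      · rw [if_neg h, coeff_eq_zero_of_natDegree_lt (lt_of_le_of_lt hdeg (not_le.1 h))]
        simp
    rw [h4]
    refine Finset.sum_le_sum_of_subset_of_nonneg ?_ (fun _ _ _ => abs_nonneg _)
    intro i hi
    rw [Finset.mem_filter] at hi
    exact Finset.mem_range.2 (Nat.lt_succ_of_le hi.2)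
  calc _ ≤ ∑ i ∈ Finset.range (n + 1), 2 ^ n * |((toPoly l).coeff (i + j) : ℝ)| :=
        Finset.sum_le_sum fun i _ => h1 i
    _ = 2 ^ n * ∑ i ∈ Finset.range (n + 1), |((toPoly l).coeff (i + j) : ℝ)| := by
        rw [Finset.mul_sum]
    _ ≤ 2 ^ n * 2 ^ e := by
        refine mul_le_mul_of_nonneg_left (h2.trans ?_) (by positivity)
        rw [sum_abs_toPoly hn]
        exact_mod_cast he

theorem hasse_eval {p : ℤ[X]} {n : ℕ} (hn : p.natDegree ≤ n) (j : ℕ) (x : ℂ) :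
    (hasseDeriv j (p.map (Int.castRingHom ℂ))).eval x =
      ∑ i ∈ Finset.range (n + 1), ((i.choose j : ℕ) : ℂ) * (p.coeff i : ℂ) * x ^ (i - j) := by
  rw [hasseDeriv_apply, sum_over_range' _ _ (n + 1)]
  · rw [eval_finsetSum]
    refine Finset.sum_congr rfl fun i _ => ?_
    simp
  · exact Nat.lt_succ_of_le ((natDegree_map_le).trans hn)
  · intro i; simp

theorem aeval_hasse (p : ℤ[X]) (j : ℕ) (x : ℂ) :
    aeval x (hasseDeriv j p) = (hasseDeriv j (p.map (Int.castRingHom ℂ))).eval x := by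
  have h1 : hasseDeriv j (p.map (Int.castRingHom ℂ)) = (hasseDeriv j p).map (Int.castRingHom ℂ) := by
    ext i
    rw [hasseDeriv_coeff, coeff_map, coeff_map, hasseDeriv_coeff]
    simp
  rw [h1, eval_map]
  rfl

/-- the Taylor coefficients computed by the algorithm -/
theorem taylor_hat {l : List ℤ} {n : ℕ} (hn : l.length = n + 1) (w : ℕ) (g : ℤ × ℤ) {j : ℕ}
    (hj : j ≤ n) :
    toC ((Pool.Agent.Helper78.UF.taylor g (hat 0 w l)).getD j (0, 0)) =
      2 ^ (w * (n - j)) * aeval (toC g / 2 ^ w) (hasseDeriv j (toPoly l)) := by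
  rw [taylor_spec, taylor_coeff, aeval_hasse]
  have h1 : (hat 0 w l).length = n + 1 := by rw [length_hat, hn]
  rw [hasse_eval (natDegree_toPoly_le h1), hasse_eval (natDegree_toPoly_le hn), Finset.mul_sum]
  refine Finset.sum_congr rfl fun i hi => ?_
  have hi' : i ≤ n := Nat.lt_succ_iff.1 (Finset.mem_range.1 hi)
  by_cases hij : j ≤ i
  · rw [coeff_toPoly, coeff_toPoly, hat_getD, hn]
    push_cast
    have h2 : (2 : ℂ) ^ (w * (n - j)) = 2 ^ (w * (n - i)) * (2 ^ w) ^ (i - j) := by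
      rw [← pow_mul, ← pow_add, ← Nat.mul_add]
      congr 2
      omega
    rw [h2, div_pow]
    have h4 : ((2 : ℂ) ^ w) ^ (i - j) ≠ 0 := pow_ne_zero _ (pow_ne_zero _ two_ne_zero)
    simp only [zero_mul, zero_add]
    field_simp
  · rw [Nat.choose_eq_zero_of_lt (not_le.1 hij)]
    simp

/-- the multiplicity in terms of the Taylor coefficients -/
theorem rootMultiplicity_eq_of {p : ℤ[X]} {x : ℂ} {m : ℕ}
    (h0 : aeval x (hasseDeriv m p) ≠ 0) (h1 : ∀ j < m, aeval x (hasseDeriv j p) = 0) :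
    (p.map (Int.castRingHom ℂ)).rootMultiplicity x = m := by
  have h2 : ∀ j, (Polynomial.taylor x (p.map (Int.castRingHom ℂ))).coeff j =
      aeval x (hasseDeriv j p) := by
    intro j
    rw [taylor_coeff, aeval_hasse]
  rw [rootMultiplicity_eq_natTrailingDegree]
  change (Polynomial.taylor x (p.map (Int.castRingHom ℂ))).natTrailingDegree = m
  apply le_antisymm
  · exact natTrailingDegree_le_of_ne_zero (by rw [h2]; exact h0)
  · refine le_natTrailingDegree ?_ ?_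
    · intro h
      rw [← h2, h] at h0
      simp at h0
    · intro j hj
      rw [h2, h1 j hj]

/-! ### the specification of `multAt` -/

theorem hasse_top {l : List ℤ} {n : ℕ} (hn : l.length = n + 1) (hl : l.getLastD 0 ≠ 0) (x : ℂ) :
    aeval x (hasseDeriv n (toPoly l)) ≠ 0 := by
  have h1 : hasseDeriv n (toPoly l) = C (l.getD n 0) := by
    ext i
    rw [hasseDeriv_coeff, coeff_C]
    by_cases hi : i = 0
    · subst hi
      simp [coeff_toPoly]
    · rw [if_neg hi, coeff_eq_zero_of_natDegree_lt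
        (lt_of_le_of_lt (natDegree_toPoly_le hn) (by omega))]
      simp
  have h2 : l.getD n 0 = l.getLastD 0 := by
    rcases List.eq_nil_or_concat l with h | ⟨m, b, h⟩
    · rw [h] at hn; simp at hn
    · subst h
      have h3 : m.length = n := by simpa using hn
      subst h3
      simp
  rw [h1, h2, aeval_C]
  simpa using hl

theorem two_pow_bound (n e : ℕ) :
    2 ^ n * 2 ^ e * (n * (16 * n) * (2 ^ (e + 1)) ^ n) * (2 * 2 ^ pU n e) ≤ 2 ^ pW n e := by
  have h1 : n ≤ 2 ^ n := Nat.lt_two_pow_self.le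
  calc 2 ^ n * 2 ^ e * (n * (16 * n) * (2 ^ (e + 1)) ^ n) * (2 * 2 ^ pU n e)
      ≤ 2 ^ n * 2 ^ e * (2 ^ n * (16 * 2 ^ n) * (2 ^ (e + 1)) ^ n) * (2 * 2 ^ pU n e) := by
        gcongr
    _ = 2 ^ (n + e + (n + (4 + n) + (e + 1) * n) + (1 + pU n e)) := by
        rw [← pow_mul]
        simp only [pow_add, pow_one]
        norm_num
    _ ≤ 2 ^ pW n e := by
        refine Nat.pow_le_pow_right (by norm_num) ?_
        unfold pW tau s0 b1 c0
        generalize (e + 1) * n = q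
        omega

/-- the multiplicity of a root is computed correctly -/
theorem multAt_spec_aux {l : List ℤ} {n : ℕ} (hn : l.length = n + 1) (h1 : 1 ≤ n)
    (hl : l.getLastD 0 ≠ 0) {e : ℕ} (he : (l.map Int.natAbs).sum ≤ 2 ^ e)
    {α : ℂ} {g : ℤ × ℤ}
    (hg : ‖α * 2 ^ pW n e - toC g‖ ≤ 16 * n) (hα : ‖α‖ ≤ 2 ^ e)
    (hlow : ∀ p : ℤ[X], p.natDegree ≤ n →
      ∑ i ∈ Finset.range (n + 1), |(p.coeff i : ℝ)| ≤ 2 ^ tau n e → aeval α p ≠ 0 →
      1 ≤ (2 ^ e : ℝ) ^ n * (2 ^ tau n e * (2 ^ e) ^ n) ^ n * ‖aeval α p‖) :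
    multAt (pU n e) (pW n e) l g =
      ((toPoly l).map (Int.castRingHom ℂ)).rootMultiplicity α := by
  classical
  set w := pW n e with hw
  set z : ℂ := toC g / 2 ^ w with hz
  set u := pU n e with hu
  have hwpos : (0 : ℝ) < 2 ^ w := by positivity
  have hupos : (0 : ℝ) < 2 ^ u := by positivity
  have hzα : ‖z - α‖ ≤ 16 * n / 2 ^ w := by
    have h2 : z - α = -(α * 2 ^ w - toC g) / 2 ^ w := by
      rw [hz]
      have : (2 : ℂ) ^ w ≠ 0 := pow_ne_zero _ two_ne_zero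
      field_simp
      ring
    rw [h2, norm_div, norm_neg, norm_pow]
    have h3 : ‖(2 : ℂ)‖ = 2 := by simp
    rw [h3]
    gcongr
  have hbig : ((16 * n : ℕ) : ℝ) ≤ 2 ^ w := by
    have h2 : 16 * n ≤ 2 ^ w := by
      have h3 : n ≤ 2 ^ n := Nat.lt_two_pow_self.le
      calc 16 * n ≤ 16 * 2 ^ n := by gcongr
        _ = 2 ^ (4 + n) := by rw [pow_add]; norm_num
        _ ≤ 2 ^ w := by
          refine Nat.pow_le_pow_right (by norm_num) ?_
          rw [hw]
          unfold pW c0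
          omega
    exact_mod_cast h2
  have hR : (1 : ℝ) ≤ 2 ^ (e + 1) := one_le_pow₀ (by norm_num)
  have hα' : ‖α‖ ≤ 2 ^ (e + 1) := hα.trans (pow_le_pow_right₀ (by norm_num) (Nat.le_succ e))
  have hz' : ‖z‖ ≤ 2 ^ (e + 1) := by
    have h2 : ‖z‖ ≤ ‖z - α‖ + ‖α‖ := by
      have := norm_add_le (z - α) α
      simpa using this
    have h3 : (16 * n / 2 ^ w : ℝ) ≤ 1 := by
      rw [div_le_one hwpos]
      exact_mod_cast hbig
    have h4 : (1 : ℝ) ≤ 2 ^ e := one_le_pow₀ (by norm_num)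
    rw [pow_succ]
    linarith
  -- perturbation
  have key : ∀ j, ‖aeval z (hasseDeriv j (toPoly l)) - aeval α (hasseDeriv j (toPoly l))‖ *
      (2 * 2 ^ u) ≤ 1 := by
    intro j
    have h2 := aeval_sub_le (natDegree_hasse_le (natDegree_toPoly_le hn) j)
      (sum_abs_hasse_le hn he j) hR hz' hα'
    have h3 : (2 ^ n * 2 ^ e * (n * ‖z - α‖ * (2 ^ (e + 1)) ^ n) : ℝ) ≤
        2 ^ n * 2 ^ e * (n * (16 * n / 2 ^ w) * (2 ^ (e + 1)) ^ n) := by
      gcongr
    have h4 : (2 ^ n * 2 ^ e * (n * (16 * n / 2 ^ w) * (2 ^ (e + 1)) ^ n) * (2 * 2 ^ u) : ℝ) ≤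
        1 := by
      have h5 : (2 ^ n * 2 ^ e * (n * (16 * n / 2 ^ w) * (2 ^ (e + 1)) ^ n) * (2 * 2 ^ u) : ℝ) =
          (2 ^ n * 2 ^ e * (n * (16 * n) * (2 ^ (e + 1)) ^ n) * (2 * 2 ^ u)) / 2 ^ w := by
        ring
      rw [h5, div_le_one hwpos]
      exact_mod_cast two_pow_bound n e
    calc _ ≤ (2 ^ n * 2 ^ e * (n * (16 * n / 2 ^ w) * (2 ^ (e + 1)) ^ n) : ℝ) * (2 * 2 ^ u) :=
          mul_le_mul_of_nonneg_right (h2.trans h3) (by positivity)
      _ ≤ 1 := h4
  have hcoef : ∀ j ≤ n, ‖toC ((Pool.Agent.Helper78.UF.taylor g (hat 0 w l)).getD j (0, 0))‖ =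
      2 ^ (w * (n - j)) * ‖aeval z (hasseDeriv j (toPoly l))‖ := by
    intro j hj
    rw [taylor_hat hn w g hj, norm_mul, norm_pow]
    simp [hz]
  have caseA : ∀ j ≤ n, aeval α (hasseDeriv j (toPoly l)) = 0 →
      ¬ (2 ^ (w * (l.length - 1 - j)) <
        n1 ((Pool.Agent.Helper78.UF.taylor g (hat 0 w l)).getD j (0, 0)) * 2 ^ u) := by
    intro j hj h0
    rw [not_lt, hn, Nat.add_sub_cancel]
    have h2 := key j
    rw [h0, sub_zero] at h2
    have h3 := n1_le ((Pool.Agent.Helper78.UF.taylor g (hat 0 w l)).getD j (0, 0))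
    rw [hcoef j hj] at h3
    have h4 : ((n1 ((Pool.Agent.Helper78.UF.taylor g (hat 0 w l)).getD j (0, 0)) * 2 ^ u : ℕ) : ℝ)
        ≤ ((2 ^ (w * (n - j)) : ℕ) : ℝ) := by
      push_cast
      calc (n1 ((Pool.Agent.Helper78.UF.taylor g (hat 0 w l)).getD j (0, 0)) : ℝ) * 2 ^ u
          ≤ (2 * (2 ^ (w * (n - j)) * ‖aeval z (hasseDeriv j (toPoly l))‖)) * 2 ^ u := by
            gcongr
        _ = 2 ^ (w * (n - j)) * (‖aeval z (hasseDeriv j (toPoly l))‖ * (2 * 2 ^ u)) := by ring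
        _ ≤ 2 ^ (w * (n - j)) * 1 := by gcongr
        _ = 2 ^ (w * (n - j)) := mul_one _
    exact_mod_cast h4
  have caseB : ∀ j ≤ n, aeval α (hasseDeriv j (toPoly l)) ≠ 0 →
      2 ^ (w * (l.length - 1 - j)) <
        n1 ((Pool.Agent.Helper78.UF.taylor g (hat 0 w l)).getD j (0, 0)) * 2 ^ u := by
    intro j hj h0
    rw [hn, Nat.add_sub_cancel]
    have h2 := key j
    have hT : ∑ i ∈ Finset.range (n + 1), |((hasseDeriv j (toPoly l)).coeff i : ℝ)| ≤
        2 ^ tau n e := by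
      refine (sum_abs_hasse_le hn he j).trans ?_
      rw [← pow_add]
      refine pow_le_pow_right₀ (by norm_num) ?_
      unfold tau s0 b1
      omega
    have h3 := hlow _ (natDegree_hasse_le (natDegree_toPoly_le hn) j) hT h0
    have h4 : (2 * ((2 ^ e : ℝ) ^ n * (2 ^ tau n e * (2 ^ e) ^ n) ^ n) : ℝ) = 2 ^ u := by
      rw [hu]
      unfold pU
      rw [← pow_mul, ← pow_add, ← pow_mul, ← pow_add, pow_succ]
      ring
    have h5 : 2 ≤ 2 ^ u * ‖aeval α (hasseDeriv j (toPoly l))‖ := by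
      rw [← h4]
      linarith
    have h6 : ‖aeval α (hasseDeriv j (toPoly l))‖ ≤ ‖aeval z (hasseDeriv j (toPoly l))‖ +
        ‖aeval z (hasseDeriv j (toPoly l)) - aeval α (hasseDeriv j (toPoly l))‖ := by
      have h7 := norm_sub_norm_le (aeval α (hasseDeriv j (toPoly l)))
        (aeval z (hasseDeriv j (toPoly l)))
      rw [norm_sub_rev] at h7
      linarith
    have h7 : 1 < ‖aeval z (hasseDeriv j (toPoly l))‖ * 2 ^ u := by
      have h8 : 2 ^ u * ‖aeval α (hasseDeriv j (toPoly l))‖ ≤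
          2 ^ u * (‖aeval z (hasseDeriv j (toPoly l))‖ +
          ‖aeval z (hasseDeriv j (toPoly l)) - aeval α (hasseDeriv j (toPoly l))‖) :=
        mul_le_mul_of_nonneg_left h6 hupos.le
      nlinarith
    have h3' := norm_toC_le ((Pool.Agent.Helper78.UF.taylor g (hat 0 w l)).getD j (0, 0))
    rw [hcoef j hj] at h3'
    have h9 : ((2 ^ (w * (n - j)) : ℕ) : ℝ) <
        ((n1 ((Pool.Agent.Helper78.UF.taylor g (hat 0 w l)).getD j (0, 0)) * 2 ^ u : ℕ) : ℝ) := by
      push_cast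
      calc (2 : ℝ) ^ (w * (n - j)) = 2 ^ (w * (n - j)) * 1 := (mul_one _).symm
        _ < 2 ^ (w * (n - j)) * (‖aeval z (hasseDeriv j (toPoly l))‖ * 2 ^ u) := by gcongr
        _ = (2 ^ (w * (n - j)) * ‖aeval z (hasseDeriv j (toPoly l))‖) * 2 ^ u := by ring
        _ ≤ _ := by gcongr
    exact_mod_cast h9
  -- the first nonvanishing derivative
  have hex : ∃ j, aeval α (hasseDeriv j (toPoly l)) ≠ 0 := ⟨n, hasse_top hn hl α⟩
  set m := Nat.find hex with hm
  have hm0 : aeval α (hasseDeriv m (toPoly l)) ≠ 0 := Nat.find_spec hex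
  have hmn : m ≤ n := Nat.find_min' hex (hasse_top hn hl α)
  have hm1 : ∀ j < m, aeval α (hasseDeriv j (toPoly l)) = 0 := by
    intro j hj
    by_contra h
    exact Nat.find_min hex hj h
  rw [rootMultiplicity_eq_of hm0 hm1]
  unfold multAt
  have hfind : (List.range l.length).find? (fun j => decide (2 ^ (w * (l.length - 1 - j)) <
      n1 ((Pool.Agent.Helper78.UF.taylor g (hat 0 w l)).getD j (0, 0)) * 2 ^ u)) = some m := by
    rw [List.find?_range_eq_some]
    refine ⟨by simpa using caseB m hmn hm0, List.mem_range.2 (by omega), ?_⟩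
    intro j hj
    have := caseA j (by omega) (hm1 j hj)
    simpa using this
  rw [hfind]
  rfl

end Pool.Agent.Helper71.UF
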